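import Mathlib
import Pool.Agent.helper60.POS.Defs

set_option autoImplicit false

/-!
# Easton's lemma for the product of a ccc and a countably closed order
-/

open Cardinal Order

namespace Pool.Agent.helper60.POS

section C

/-- Countable families directed downwards have lower bounds. -/
theorem SigmaClosed.exists_lb {R : Type} [Preorder R] (hR : SigmaClosed R) {V : Type}
    [Countable V] [Nonempty V] (f : V → R) (hf : Directed (· ≥ ·) f) : ∃ r, ∀ v, r ≤ f v := by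
  have : Encodable V := Encodable.ofCountable V
  have : Inhabited V := Classical.inhabited_of_nonempty inferInstance
  obtain ⟨r, hr⟩ := hR (f ∘ hf.sequence f) hf.sequence_anti
  exact ⟨r, fun v => (hr (Encodable.encode v + 1)).trans (hf.sequence_le v)⟩

/-- A predense countable set inside a family. -/
theorem exists_predense' {P : Type} [Preorder P] (hP : CCC P) (T : Set P) :
    ∃ A ⊆ T, A.Countable ∧ ∀ q ∈ T, ∃ p ∈ A, ∃ t, t ≤ q ∧ t ≤ p := by
  classical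
  let S : Set (Set P) := {A | A ⊆ T ∧ ∀ p ∈ A, ∀ q ∈ A, p ≠ q → ¬ ∃ r, r ≤ p ∧ r ≤ q}
  obtain ⟨A, hA⟩ : ∃ A, Maximal (· ∈ S) A := by
    apply zorn_subset
    intro c hc hchain
    refine ⟨⋃₀ c, ⟨?_, ?_⟩, fun s hs => Set.subset_sUnion_of_mem hs⟩
    · exact Set.sUnion_subset fun s hs => (hc hs).1
    · rintro p ⟨s, hs, hps⟩ q ⟨s', hs', hqs⟩ hpq
      rcases hchain.total hs hs' with h | h
      · exact (hc hs').2 p (h hps) q hqs hpq
      · exact (hc hs).2 p hps q (h hqs) hpq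
  refine ⟨A, hA.prop.1, hP A hA.prop.2, fun q hq => ?_⟩
  by_contra hcon
  push Not at hcon
  have hqA : q ∉ A := fun h => hcon q h q le_rfl le_rfl
  have hins : insert q A ∈ S := by
    refine ⟨Set.insert_subset hq hA.prop.1, ?_⟩
    rintro p (rfl | hp) p' (rfl | hp') hne ⟨r, hr1, hr2⟩
    · exact hne rfl
    · exact hcon p' hp' r hr1 hr2
    · exact hcon p hp r hr2 hr1
    · exact hA.prop.2 p hp p' hp' hne ⟨r, hr1, hr2⟩
  exact hqA (hA.le_of_ge hins (Set.subset_insert q A) (Set.mem_insert q A))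

theorem exists_predense {P : Type} [Preorder P] (hP : CCC P) (T : Set P)
    (hT : ∀ p ∈ T, ∀ q ≤ p, q ∈ T) :
    ∃ A ⊆ T, A.Countable ∧ ∀ q ∈ T, ∃ p ∈ A, ∃ t, t ≤ q ∧ t ≤ p :=
  exists_predense' hP T

/-- Easton's lemma for one dense family. -/
theorem easton_one {P R : Type} [Preorder P] [Preorder R] (hP : CCC P) (hR : SigmaClosed R)
    (p₀ : P) (r₀ : R) (U : P → R → Prop)
    (hU : ∀ p r p' r', p' ≤ p → r' ≤ r → U p r → U p' r')
    (hd : ∀ p ≤ p₀, ∀ r ≤ r₀, ∃ p' ≤ p, ∃ r' ≤ r, U p' r') :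
    ∃ r ≤ r₀, ∃ A : Set P, A.Countable ∧ (∀ p ∈ A, p ≤ p₀ ∧ U p r) ∧
      ∀ q ≤ p₀, ∃ p ∈ A, ∃ t, t ≤ q ∧ t ≤ p := by
  classical
  let T : Type := {x : Set P × R // (∀ p ∈ x.1, ∀ q ∈ x.1, p ≠ q → ¬ ∃ r, r ≤ p ∧ r ≤ q) ∧
    x.2 ≤ r₀ ∧ ∀ p ∈ x.1, p ≤ p₀ ∧ U p x.2}
  let rel : T → T → Prop := fun x y => x = y ∨ (x.1.1 ⊂ y.1.1 ∧ y.1.2 ≤ x.1.2)
  obtain ⟨m, hm⟩ : ∃ m, ∀ a, rel m a → rel a m := by
    apply exists_maximal_of_chains_bounded
    · intro c hc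
      rcases c.eq_empty_or_nonempty with rfl | ⟨x₀, hx₀⟩
      · exact ⟨⟨(∅, r₀), by simp, le_rfl, by simp⟩, by simp⟩
      by_cases hmax : ∃ m ∈ c, ∀ a ∈ c, rel a m
      · obtain ⟨m, -, hm⟩ := hmax
        exact ⟨m, hm⟩
      push Not at hmax
      have hstep : ∀ m ∈ c, ∃ a ∈ c, m.1.1 ⊂ a.1.1 ∧ a.1.2 ≤ m.1.2 := by
        intro m hm
        obtain ⟨a, ha, hna⟩ := hmax m hm
        have hne : a ≠ m := fun h => hna (Or.inl h)
        rcases hc ha hm hne with h | h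
        · exact absurd h hna
        · rcases h with h | h
          · exact absurd h.symm hne
          · exact ⟨a, ha, h⟩
      have hcomp : ∀ x ∈ c, ∀ y ∈ c, (x.1.1 ⊆ y.1.1 ∧ y.1.2 ≤ x.1.2) ∨
          (y.1.1 ⊆ x.1.1 ∧ x.1.2 ≤ y.1.2) := by
        intro x hx y hy
        by_cases hxy : x = y
        · subst hxy
          exact Or.inl ⟨subset_rfl, le_rfl⟩
        · rcases hc hx hy hxy with h | h
          · rcases h with h | h
            · exact absurd h hxy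
            · exact Or.inl ⟨h.1.subset, h.2⟩
          · rcases h with h | h
            · exact absurd h.symm hxy
            · exact Or.inr ⟨h.1.subset, h.2⟩
      let V : Set P := ⋃ x ∈ c, x.1.1
      have hVanti : ∀ p ∈ V, ∀ q ∈ V, p ≠ q → ¬ ∃ r, r ≤ p ∧ r ≤ q := by
        intro p hp q hq hpq
        simp only [V, Set.mem_iUnion] at hp hq
        obtain ⟨x, hx, hpx⟩ := hp
        obtain ⟨y, hy, hqy⟩ := hq
        rcases hcomp x hx y hy with h | h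
        · exact y.2.1 p (h.1 hpx) q hqy hpq
        · exact x.2.1 p hpx q (h.1 hqy) hpq
      have hVc : V.Countable := hP V hVanti
      have hch : ∀ v : V, ∃ x ∈ c, v.1 ∈ x.1.1 := by
        rintro ⟨v, hv⟩
        simp only [V, Set.mem_iUnion] at hv
        obtain ⟨x, hx, hvx⟩ := hv
        exact ⟨x, hx, hvx⟩
      choose g hgc hg using hch
      have : Countable V := hVc.to_subtype
      have : Nonempty V := by
        obtain ⟨a, ha, hlt, -⟩ := hstep x₀ hx₀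
        obtain ⟨v, hv, -⟩ := Set.exists_of_ssubset hlt
        exact ⟨⟨v, by simp only [V, Set.mem_iUnion]; exact ⟨a, ha, hv⟩⟩⟩
      obtain ⟨r, hr⟩ := hR.exists_lb (fun v : V => (g v).1.2) (by
        intro v w
        rcases hcomp (g v) (hgc v) (g w) (hgc w) with h | h
        · exact ⟨w, h.2, le_rfl⟩
        · exact ⟨v, le_rfl, h.2⟩)
      refine ⟨⟨(V, r), hVanti, ?_, ?_⟩, ?_⟩
      · obtain ⟨v⟩ := (inferInstance : Nonempty V)
        exact (hr v).trans (g v).2.2.1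
      · intro p hp
        have h := (g ⟨p, hp⟩).2.2.2 p (hg ⟨p, hp⟩)
        exact ⟨h.1, hU _ _ _ _ le_rfl (hr ⟨p, hp⟩) h.2⟩
      · intro x hx
        right
        obtain ⟨a, ha, hlt, -⟩ := hstep x hx
        obtain ⟨v, hv, hvx⟩ := Set.exists_of_ssubset hlt
        have hvV : v ∈ V := by
          simp only [V, Set.mem_iUnion]
          exact ⟨a, ha, hv⟩
        have hsub : x.1.1 ⊆ V := by
          intro p hp
          simp only [V, Set.mem_iUnion]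
          exact ⟨x, hx, hp⟩
        refine ⟨⟨hsub, fun h => hvx (h hvV)⟩, ?_⟩
        rcases hcomp x hx (g ⟨v, hvV⟩) (hgc ⟨v, hvV⟩) with h | h
        · exact (hr ⟨v, hvV⟩).trans h.2
        · exact absurd (h.1 (hg ⟨v, hvV⟩)) hvx
    · rintro a b d (rfl | h) (rfl | h')
      · exact Or.inl rfl
      · exact Or.inr h'
      · exact Or.inr h
      · exact Or.inr ⟨h.1.trans h'.1, h'.2.trans h.2⟩
  refine ⟨m.1.2, m.2.2.1, m.1.1, hP _ m.2.1, m.2.2.2, fun q hq => ?_⟩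
  by_contra hcon
  push Not at hcon
  obtain ⟨p', hp', r', hr', hUp⟩ := hd q hq m.1.2 m.2.2.1
  have hp'm : p' ∉ m.1.1 := fun h => hcon p' h p' hp' le_rfl
  let a : T := ⟨(insert p' m.1.1, r'), by
    refine ⟨?_, hr'.trans m.2.2.1, ?_⟩
    · rintro p (rfl | hp) s (rfl | hs) hne ⟨t, ht1, ht2⟩
      · exact hne rfl
      · exact hcon s hs t (ht1.trans hp') ht2
      · exact hcon p hp t (ht2.trans hp') ht1
      · exact m.2.1 p hp s hs hne ⟨t, ht1, ht2⟩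
    · rintro p (rfl | hp)
      · exact ⟨hp'.trans hq, hUp⟩
      · exact ⟨(m.2.2.2 p hp).1, hU _ _ _ _ le_rfl hr' (m.2.2.2 p hp).2⟩⟩
  have hma : rel m a := Or.inr ⟨⟨Set.subset_insert _ _, fun h => hp'm (h (Set.mem_insert _ _))⟩, hr'⟩
  rcases hm a hma with h | h
  · apply hp'm
    rw [← h]
    exact Set.mem_insert _ _
  · exact h.1.2 (Set.subset_insert _ _)

/-- Easton's lemma. -/
theorem easton {P R : Type} [Preorder P] [Preorder R] (hP : CCC P) (hR : SigmaClosed R)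
    (p₀ : P) (r₀ : R) (U : ℕ → P → R → Prop)
    (hU : ∀ n p r p' r', p' ≤ p → r' ≤ r → U n p r → U n p' r')
    (hd : ∀ n, ∀ p ≤ p₀, ∀ r ≤ r₀, ∃ p' ≤ p, ∃ r' ≤ r, U n p' r') :
    ∃ r ≤ r₀, ∀ n, ∃ A : Set P, A.Countable ∧ (∀ p ∈ A, p ≤ p₀ ∧ U n p r) ∧
      ∀ q ≤ p₀, ∃ p ∈ A, ∃ t, t ≤ q ∧ t ≤ p := by
  have key : ∀ (n : ℕ) (r₁ : {r : R // r ≤ r₀}), ∃ r : {r : R // r ≤ r₀}, r.1 ≤ r₁.1 ∧
      ∃ A : Set P, A.Countable ∧ (∀ p ∈ A, p ≤ p₀ ∧ U n p r.1) ∧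
      ∀ q ≤ p₀, ∃ p ∈ A, ∃ t, t ≤ q ∧ t ≤ p := by
    intro n r₁
    obtain ⟨r, hr, A, h1, h2, h3⟩ := easton_one hP hR p₀ r₁.1 (U n) (hU n)
      (fun p hp r hr => hd n p hp r (hr.trans r₁.2))
    exact ⟨⟨r, hr.trans r₁.2⟩, hr, A, h1, h2, h3⟩
  choose g hg1 hg2 using key
  let f : ℕ → {r : R // r ≤ r₀} := fun n => Nat.rec ⟨r₀, le_rfl⟩ (fun k r => g k r) n
  have hf : Antitone (fun n => (f n).1) := antitone_nat_of_succ_le fun n => hg1 n (f n)
  obtain ⟨r, hr⟩ := hR _ hf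
  refine ⟨r, hr 0, fun n => ?_⟩
  obtain ⟨A, h1, h2, h3⟩ := hg2 n (f n)
  exact ⟨A, h1, fun p hp => ⟨(h2 p hp).1, hU _ _ _ _ _ le_rfl (hr (n + 1)) (h2 p hp).2⟩, h3⟩

end C

end Pool.Agent.helper60.POS
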