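import Mathlib
import Pool.Agent.helper60.POS.Defs
import Pool.Agent.helper91.POS.C

set_option autoImplicit false

/-!
# Chang's conjecture and the Chang step
-/

open Cardinal Order

namespace Pool.Agent.helper60.POS

open Pool.Agent.helper60.FcU

section E

/-- The language with a copy of the natural numbers as function symbols in each arity. -/
def NLang : FirstOrder.Language.{0, 0} := ⟨fun _ => ℕ, fun _ => Empty⟩

theorem NLang.card_le : NLang.card ≤ ℵ₀ := by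
  unfold FirstOrder.Language.card FirstOrder.Language.Symbols
  have h1 : Countable (Σ l, NLang.Functions l) := by
    have : ∀ l, Countable (NLang.Functions l) := fun _ => (inferInstance : Countable ℕ)
    infer_instance
  have h2 : Countable (Σ l, NLang.Relations l) := by
    have : ∀ l, Countable (NLang.Relations l) := fun _ => (inferInstance : Countable Empty)
    infer_instance
  exact Cardinal.mk_le_aleph0

theorem algChang_of {κ : Cardinal.{0}} (h : ChangConj κ ℵ₀) : AlgChang κ := by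
  intro A U hA hU f
  let _ : NLang.Structure A :=
    { funMap := fun {n} k v => f k (List.ofFn v)
      RelMap := fun {n} r _ => (nomatch (show Empty from r)) }
  obtain ⟨N, hN1, hN2⟩ := h NLang NLang.card_le A U hA hU
  refine ⟨(N : Set A), ?_, ?_, ?_⟩
  · rw [← Cardinal.succ_aleph0]
    exact hN1
  · rw [← Cardinal.le_aleph0_iff_set_countable]
    exact hN2.le
  · intro n l hl
    have h1 := N.toSubstructure.fun_mem (n := l.length) (show NLang.Functions l.length from n)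
      (fun i => l.get i) (fun i => hl _ (List.get_mem l i))
    have h2 : FirstOrder.Language.Structure.funMap (L := NLang) (M := A)
        (show NLang.Functions l.length from n) (fun i => l.get i) = f n l := by
      show f n (List.ofFn fun i => l.get i) = f n l
      rw [List.ofFn_get]
    rw [h2] at h1
    exact h1

/-- The algebraic form with any countable set of operations. -/
theorem AlgChang.ops {κ : Cardinal.{0}} (h : AlgChang κ) (A : Type) (U : Set A)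
    (hA : #A = succ κ) (hU : #U = κ) {I : Type} [Countable I] [Nonempty I]
    (op : I → List A → A) :
    ∃ N : Set A, #N = ℵ₁ ∧ (N ∩ U).Countable ∧ ∀ i, ∀ l : List A, (∀ x ∈ l, x ∈ N) →
      op i l ∈ N := by
  obtain ⟨g, hg⟩ := exists_surjective_nat I
  obtain ⟨N, h1, h2, h3⟩ := h A U hA hU (fun n => op (g n))
  refine ⟨N, h1, h2, fun i l hl => ?_⟩
  obtain ⟨n, rfl⟩ := hg i
  exact h3 n l hl

theorem chang_step {κ : Cardinal.{0}} (hκ : ℵ₀ ≤ κ) (hA : AlgChang κ) {P R K L : Type}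
    [Preorder P] [Preorder R] (hP : CCC P) (hR : SigmaClosed R) (hRκ : #(ℕ → R → R) ≤ κ)
    (𝒴 : Set (Set K)) (h𝒴 : #𝒴 ≤ κ) (kj : ℕ → Cardinal.{0}) (C : Set L) (hC : #C = succ κ)
    (U : K → L → P × R → Prop) (hU : ∀ x y, Reg (U x y)) (p₀ : P) (r₀ : R)
    (hd : ∀ F : Finset L, (∀ y ∈ F, y ∈ C) → ∀ j, ∀ t ≤ (p₀, r₀), ∃ u ≤ t, ∃ Y ∈ 𝒴, kj j ≤ #Y ∧
      ∀ x ∈ Y, ∀ y ∈ F, U x y u) :
    ∃ r ≤ r₀, ∃ (N : Set L) (Z : Set (Set K)), N ⊆ C ∧ #N = ℵ₁ ∧ Z ⊆ 𝒴 ∧ Z.Countable ∧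
      ∀ F : Finset L, (∀ y ∈ F, y ∈ N) → ∀ j, ∀ q ≤ p₀, ∃ q' ≤ q, ∃ Y ∈ Z, kj j ≤ #Y ∧
        ∀ x ∈ Y, ∀ y ∈ F, U x y (q', r) := by
  classical
  -- one step
  have step : ∀ (l : List C) (j : ℕ) (r' : R), ∃ (e : R) (Y : ℕ → 𝒴), e ≤ r' ∧
      (r' ≤ r₀ → ∀ q ≤ p₀, ∃ k, ∃ t ≤ q, kj j ≤ #(Y k).1 ∧
        ∀ x ∈ (Y k).1, ∀ y ∈ l, U x y.1 (t, e)) := by
    intro l j r'
    have hne : Nonempty 𝒴 := by
      obtain ⟨u, -, Y, hY, -⟩ := hd ∅ (by simp) 0 (p₀, r₀) le_rfl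
      exact ⟨⟨Y, hY⟩⟩
    by_cases hr' : r' ≤ r₀
    · obtain ⟨e, he, A, hA1, hA2, hA3⟩ := easton_one hP hR p₀ r'
        (fun p r => ∃ Y : 𝒴, kj j ≤ #Y.1 ∧ ∀ x ∈ Y.1, ∀ y ∈ l, U x y.1 (p, r))
        (by
          rintro p r p' r' hp hr ⟨Y, hY1, hY2⟩
          exact ⟨Y, hY1, fun x hx y hy => (hU x y.1).mono (Prod.mk_le_mk.2 ⟨hp, hr⟩)
            (hY2 x hx y hy)⟩)
        (by
          intro p hp r hr
          obtain ⟨u, hu, Y, hY, h1, h2⟩ := hd (l.map Subtype.val).toFinset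
            (by
              intro y hy
              simp only [List.mem_toFinset, List.mem_map] at hy
              obtain ⟨z, -, rfl⟩ := hy
              exact z.2) j (p, r) (Prod.mk_le_mk.2 ⟨hp, hr.trans hr'⟩)
          refine ⟨u.1, hu.1, u.2, hu.2, ⟨Y, hY⟩, h1, fun x hx y hy => h2 x hx y.1 ?_⟩
          simp only [List.mem_toFinset, List.mem_map]
          exact ⟨y, hy, rfl⟩)
      have hch : ∀ p : A, ∃ Y : 𝒴, kj j ≤ #Y.1 ∧ ∀ x ∈ Y.1, ∀ y ∈ l, U x y.1 (p.1, e) :=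
        fun p => (hA2 p.1 p.2).2
      choose g hg1 hg2 using hch
      have : Countable A := hA1.to_subtype
      have hAne : Nonempty A := by
        obtain ⟨p, hp, -⟩ := hA3 p₀ le_rfl
        exact ⟨⟨p, hp⟩⟩
      obtain ⟨s, hs⟩ := exists_surjective_nat A
      refine ⟨e, fun k => g (s k), he, fun _ q hq => ?_⟩
      obtain ⟨p, hp, t, ht1, ht2⟩ := hA3 q hq
      obtain ⟨k, hk⟩ := hs ⟨p, hp⟩
      refine ⟨k, t, ht1, hg1 _, fun x hx y hy => (hU x y.1).mono ?_ (hg2 _ x hx y hy)⟩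
      rw [hk]
      exact Prod.mk_le_mk.2 ⟨ht2, le_rfl⟩
    · obtain ⟨Y⟩ := hne
      exact ⟨r', fun _ => Y, le_rfl, fun h => absurd h hr'⟩
  choose e Y he hY using step
  have hne : Nonempty 𝒴 := ⟨Y [] 0 r₀ 0⟩
  -- coding
  obtain ⟨V, hV⟩ := Cardinal.le_mk_iff_exists_set.1 (show κ ≤ #C from hC ▸ le_succ κ)
  have hRne : Nonempty R := ⟨r₀⟩
  have hR' : #R ≤ κ := by
    refine le_trans ?_ hRκ
    exact Cardinal.mk_le_of_injective (f := fun r => fun (_ : ℕ) (_ : R) => r) fun a b hab =>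
      congrFun (congrFun hab 0) r₀
  obtain ⟨cR⟩ : Nonempty (R ↪ V) := by
    rw [← Cardinal.le_def, hV]
    exact hR'
  obtain ⟨cΦ⟩ : Nonempty ((ℕ → R → R) ↪ V) := by
    rw [← Cardinal.le_def, hV]
    exact hRκ
  obtain ⟨cY⟩ : Nonempty (𝒴 ↪ V) := by
    rw [← Cardinal.le_def, hV]
    exact h𝒴
  let dR : C → R := fun c => Function.invFun (fun r => (cR r).1) c
  have hdR : ∀ r, dR (cR r).1 = r := fun r =>
    Function.leftInverse_invFun (f := fun r => (cR r).1)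
      (fun a b hab => cR.injective (Subtype.ext hab)) r
  let op : Option (Option (ℕ ⊕ (ℕ × ℕ))) → List C → C := fun i l =>
    match i with
    | none => (cΦ (e l)).1
    | some none => (cR r₀).1
    | some (some (Sum.inl j)) =>
      match l with
      | [] => (cR r₀).1
      | ρ :: l => (cR (e l j (dR ρ))).1
    | some (some (Sum.inr (j, k))) =>
      match l with
      | [] => (cR r₀).1
      | ρ :: l => (cY (Y l j (dR ρ) k)).1
  obtain ⟨N, hN1, hN2, hN3⟩ := hA.ops C V hC hV op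
  have hr₀N : (cR r₀).1 ∈ N := hN3 (some none) [] (by simp)
  have hΦN : ∀ l : List C, (∀ x ∈ l, x ∈ N) → (cΦ (e l)).1 ∈ N := fun l hl => hN3 none l hl
  have heN : ∀ l : List C, (∀ x ∈ l, x ∈ N) → ∀ j r, (cR r).1 ∈ N → (cR (e l j r)).1 ∈ N := by
    intro l hl j r hr
    have h1 := hN3 (some (some (Sum.inl j))) ((cR r).1 :: l) (by
      intro x hx
      rcases List.mem_cons.1 hx with rfl | hx
      · exact hr
      · exact hl x hx)
    have h2 : op (some (some (Sum.inl j))) ((cR r).1 :: l) = (cR (e l j r)).1 := by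
      show (cR (e l j (dR (cR r).1))).1 = _
      rw [hdR]
    rwa [h2] at h1
  have hYN : ∀ l : List C, (∀ x ∈ l, x ∈ N) → ∀ j r k, (cR r).1 ∈ N →
      (cY (Y l j r k)).1 ∈ N := by
    intro l hl j r k hr
    have h1 := hN3 (some (some (Sum.inr (j, k)))) ((cR r).1 :: l) (by
      intro x hx
      rcases List.mem_cons.1 hx with rfl | hx
      · exact hr
      · exact hl x hx)
    have h2 : op (some (some (Sum.inr (j, k)))) ((cR r).1 :: l) = (cY (Y l j r k)).1 := by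
      show (cY (Y l j (dR (cR r).1) k)).1 = _
      rw [hdR]
    rwa [h2] at h1
  -- the countable set of functions
  let Φs : Set (ℕ → R → R) := {g | ∃ l : List C, (∀ x ∈ l, x ∈ N) ∧ g = e l}
  have hΦs : Φs.Countable := by
    have h1 : Set.MapsTo (fun g => (cΦ g).1) Φs (N ∩ V) := by
      rintro g ⟨l, hl, rfl⟩
      exact ⟨hΦN l hl, (cΦ (e l)).2⟩
    exact h1.countable_of_injOn (fun a _ b _ hab => cΦ.injective (Subtype.ext hab)) hN2
  have hΦc : Countable Φs := hΦs.to_subtype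
  have hΦne : Nonempty Φs := ⟨⟨e [], [], by simp, rfl⟩⟩
  obtain ⟨s, hs⟩ := exists_surjective_nat (Φs × ℕ)
  let G : Type := {r : R // r ≤ r₀ ∧ (cR r).1 ∈ N}
  have hstep : ∀ (m : ℕ) (r : G), (s m).1.1 (s m).2 r.1 ≤ r₀ ∧
      (cR ((s m).1.1 (s m).2 r.1)).1 ∈ N := by
    intro m r
    obtain ⟨l, hl, hle⟩ := (s m).1.2
    rw [hle]
    exact ⟨(he l _ _).trans r.2.1, heN l hl _ _ r.2.2⟩
  let ρ : ℕ → G := fun m => Nat.rec ⟨r₀, le_rfl, hr₀N⟩
    (fun k r => ⟨(s k).1.1 (s k).2 r.1, hstep k r⟩) m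
  have hρ : ∀ m, (ρ (m + 1)).1 = (s m).1.1 (s m).2 (ρ m).1 := fun m => rfl
  have hanti : Antitone (fun m => (ρ m).1) := by
    refine antitone_nat_of_succ_le fun m => ?_
    rw [hρ]
    obtain ⟨l, hl, hle⟩ := (s m).1.2
    rw [hle]
    exact he l _ _
  obtain ⟨r, hr⟩ := hR _ hanti
  refine ⟨r, hr 0, Subtype.val '' N, {y | ∃ h : y ∈ 𝒴, (cY ⟨y, h⟩).1 ∈ N}, ?_, ?_, ?_, ?_, ?_⟩
  · rintro _ ⟨z, -, rfl⟩
    exact z.2
  · rw [Cardinal.mk_image_eq Subtype.val_injective, hN1]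
  · rintro y ⟨h, -⟩
    exact h
  · have h1 : {y | ∃ h : y ∈ 𝒴, (cY ⟨y, h⟩).1 ∈ N} ⊆
        Subtype.val '' {y : 𝒴 | (cY y).1 ∈ N} := by
      rintro y ⟨h, hy⟩
      exact ⟨⟨y, h⟩, hy, rfl⟩
    refine Set.Countable.mono h1 (Set.Countable.image ?_ _)
    have h2 : Set.MapsTo (fun y => (cY y).1) {y : 𝒴 | (cY y).1 ∈ N} (N ∩ V) :=
      fun y hy => ⟨hy, (cY y).2⟩
    exact h2.countable_of_injOn (fun a _ b _ hab => cY.injective (Subtype.ext hab)) hN2
  · intro F hF j q hq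
    let l : List C := (F.preimage Subtype.val Subtype.val_injective.injOn).toList
    have hl : ∀ z : C, z ∈ l ↔ z.1 ∈ F := by
      intro z
      simp only [l, Finset.mem_toList, Finset.mem_preimage]
    have hlN : ∀ z ∈ l, z ∈ N := by
      intro z hz
      obtain ⟨w, hw, hwz⟩ := hF z.1 ((hl z).1 hz)
      rwa [← Subtype.ext hwz]
    obtain ⟨m, hm⟩ := hs (⟨e l, l, hlN, rfl⟩, j)
    have h1 : (ρ (m + 1)).1 = e l j (ρ m).1 := by
      rw [hρ, hm]
    obtain ⟨k, t, ht, h2, h3⟩ := hY l j (ρ m).1 (ρ m).2.1 q hq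
    refine ⟨t, ht, (Y l j (ρ m).1 k).1, ⟨(Y l j (ρ m).1 k).2, hYN l hlN j _ k (ρ m).2.2⟩, h2,
      fun x hx y hy => ?_⟩
    obtain ⟨w, hw, rfl⟩ := hF y hy
    refine (hU x w.1).mono ?_ (h3 x hx w ((hl w).2 hy))
    refine Prod.mk_le_mk.2 ⟨le_rfl, ?_⟩
    rw [← h1]
    exact hr (m + 1)

end E

end Pool.Agent.helper60.POS
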